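import Pool.Agent.H25.HD.W
import Pool.Agent.H22.HD.Stmts

/-!
# Board hds, module QUA
-/

set_option autoImplicit false

namespace Pool.Agent.H22.HD

theorem qua_thm : QUAStmt := by
  intro r α b hr hα hb
  obtain ⟨a, s, h1, h2, h3⟩ := Pool.Agent.H25.HD.w_thm r hr b α hα hb
  refine ⟨2 * r, fun l => a l, fun l => s l, fun l => h1 l, ?_, ?_⟩
  · intro k hk
    rw [← h3 k hk, Finset.sum_range]
  · rw [Finset.sum_range] at h2
    rw [mul_div_assoc]
    exact h2

end Pool.Agent.H22.HD
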