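import Mathlib

/-!
# Interpolation of the value at an imaginary point from values on a real interval
-/

set_option autoImplicit false

open Finset

namespace Pool.Agent.H25.HD

theorem w_orth {N : ℕ} (hN : 0 < N) {ω : ℂ} (hω : IsPrimitiveRoot ω N) (j e : ℕ) (hj : j < N)
    (he : e < N) : ∑ l ∈ range N, ((ω ^ l)⁻¹) ^ j * (ω ^ l) ^ e = if j = e then (N : ℂ) else 0 := by
  have hω0 : ω ≠ 0 := hω.ne_zero (by omega)
  have h1 : ∀ l ∈ range N, ((ω ^ l)⁻¹) ^ j * (ω ^ l) ^ e = (ω ^ e * (ω ^ j)⁻¹) ^ l := by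
    intro l _
    rw [mul_pow, ← pow_mul, ← pow_mul, inv_pow, inv_pow, ← pow_mul, ← pow_mul,
      mul_comm l j, mul_comm l e]
    ring
  rw [sum_congr rfl h1]
  split_ifs with h
  · subst h
    rw [mul_inv_cancel₀ (pow_ne_zero _ hω0)]
    simp
  · have h2 : ω ^ e * (ω ^ j)⁻¹ ≠ 1 := by
      intro h3
      apply h
      have h4 : ω ^ e = ω ^ j := by
        field_simp at h3
        exact h3
      exact (hω.pow_inj he hj h4).symm
    have h5 : (ω ^ e * (ω ^ j)⁻¹) ^ N = 1 := by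
      rw [mul_pow, inv_pow, ← pow_mul, ← pow_mul, mul_comm e N, mul_comm j N, pow_mul, pow_mul,
        hω.pow_eq_one]
      simp
    have h6 := mul_neg_geom_sum (ω ^ e * (ω ^ j)⁻¹) N
    rw [h5] at h6
    have h7 : (1 - ω ^ e * (ω ^ j)⁻¹) ≠ 0 := sub_ne_zero.2 (Ne.symm h2)
    simpa [h7] using h6

/-- Values of a polynomial of degree `< N` from its values at the `N`-th roots of unity. -/
theorem w_poly {N : ℕ} (hN : 0 < N) {ω : ℂ} (hω : IsPrimitiveRoot ω N) (B : Polynomial ℂ)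
    (hB : B.natDegree < N) (z : ℂ) :
    B.eval z = ∑ l ∈ range N, ((1 / N : ℂ) * ∑ j ∈ range N, (z * (ω ^ l)⁻¹) ^ j) *
      B.eval (ω ^ l) := by
  have hN' : (N : ℂ) ≠ 0 := by exact_mod_cast hN.ne'
  have h1 : ∀ w : ℂ, B.eval w = ∑ e ∈ range N, B.coeff e * w ^ e := by
    intro w
    exact Polynomial.eval_eq_sum_range' hB w
  have h2 : ∑ l ∈ range N, ((1 / N : ℂ) * ∑ j ∈ range N, (z * (ω ^ l)⁻¹) ^ j) *
      B.eval (ω ^ l) = ∑ j ∈ range N, ∑ e ∈ range N, (1 / N : ℂ) * z ^ j * B.coeff e *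
        ∑ l ∈ range N, ((ω ^ l)⁻¹) ^ j * (ω ^ l) ^ e := by
    have h3 : ∀ l ∈ range N, ((1 / N : ℂ) * ∑ j ∈ range N, (z * (ω ^ l)⁻¹) ^ j) *
      B.eval (ω ^ l) = ∑ j ∈ range N, ∑ e ∈ range N, (1 / N : ℂ) * z ^ j * B.coeff e *
        (((ω ^ l)⁻¹) ^ j * (ω ^ l) ^ e) := by
      intro l _
      rw [h1, mul_assoc, Finset.sum_mul_sum, Finset.mul_sum]
      apply sum_congr rfl
      intro j _
      rw [Finset.mul_sum]
      apply sum_congr rfl
      intro e _
      rw [mul_pow]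
      ring
    rw [sum_congr rfl h3, Finset.sum_comm]
    apply sum_congr rfl
    intro j _
    rw [Finset.sum_comm]
    apply sum_congr rfl
    intro e _
    rw [Finset.mul_sum]
  rw [h2, h1]
  apply sum_congr rfl
  intro j hj
  rw [Finset.sum_eq_single j]
  · rw [w_orth hN hω j j (mem_range.1 hj) (mem_range.1 hj), if_pos rfl]
    field_simp
  · intro e he hne
    rw [w_orth hN hω j e (mem_range.1 hj) (mem_range.1 he), if_neg (Ne.symm hne), mul_zero]
  · intro h
    exact absurd hj h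

/-- The weights. -/
theorem w_thm (r : ℕ) (hr : 1 ≤ r) (b α : ℝ) (hα : 0 < α) (hb : 0 ≤ b) :
    ∃ a s : ℕ → ℝ, (∀ l, |a l| ≤ α) ∧
      (∑ l ∈ range (2 * r), |s l| ≤ 2 * r * Real.exp (r * (b / α))) ∧
      ∀ k < r, ∑ l ∈ range (2 * r), s l * a l ^ k = ((Complex.I * (b : ℂ)) ^ k).im := by
  set N := 2 * r with hN
  have hN0 : 0 < N := by omega
  set ω : ℂ := Complex.exp (2 * Real.pi * Complex.I / N) with hωdef
  have hω : IsPrimitiveRoot ω N := Complex.isPrimitiveRoot_exp N (by omega)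
  set σ : ℝ := b / α with hσ
  have hσ0 : 0 ≤ σ := by positivity
  set t : ℝ := Real.exp (Real.arsinh σ) with ht
  have ht0 : 0 < t := Real.exp_pos _
  have ht1 : 1 ≤ t := by
    rw [ht]
    apply Real.one_le_exp
    exact Real.arsinh_nonneg_iff.2 hσ0
  have htσ : t - t⁻¹ = 2 * σ := by
    have h1 := Real.sinh_arsinh σ
    rw [Real.sinh_eq, Real.exp_neg] at h1
    rw [ht]
    linarith
  have htle : t ≤ Real.exp σ := by
    rw [ht]
    apply Real.exp_le_exp.2
    have h1 : σ ≤ Real.sinh σ := Real.self_le_sinh_iff.2 hσ0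
    calc Real.arsinh σ ≤ Real.arsinh (Real.sinh σ) := Real.arsinh_le_arsinh.2 h1
      _ = σ := Real.arsinh_sinh σ
  have htc : (t : ℂ) ≠ 0 := by exact_mod_cast ht0.ne'
  set z : ℂ := -Complex.I / t with hz
  have hz0 : z ≠ 0 := by
    rw [hz]
    exact div_ne_zero (neg_ne_zero.2 Complex.I_ne_zero) htc
  have hzn : ‖z‖ = t⁻¹ := by
    rw [hz, norm_div, norm_neg, Complex.norm_I, Complex.norm_real, Real.norm_eq_abs,
      abs_of_pos ht0, one_div]
  have hzi : z⁻¹ = Complex.I * t := by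
    rw [hz]
    field_simp
    rw [Complex.I_sq]
  have hzz : (α : ℂ) / 2 * (z + z⁻¹) = Complex.I * b := by
    have h1 : z + z⁻¹ = Complex.I * ((t - t⁻¹ : ℝ) : ℂ) := by
      rw [hzi, hz]
      push_cast
      field_simp
      ring
    rw [h1, htσ, hσ]
    push_cast
    have : (α : ℂ) ≠ 0 := by exact_mod_cast hα.ne'
    field_simp
  -- nodes
  set aa : ℕ → ℝ := fun l => α * (ω ^ l).re with haa
  have hωn : ∀ l, ‖ω ^ l‖ = 1 := by
    intro l
    rw [norm_pow, hω.norm'_eq_one (by omega), one_pow]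
  have haac : ∀ l, (aa l : ℂ) = (α : ℂ) / 2 * (ω ^ l + (ω ^ l)⁻¹) := by
    intro l
    have h1 : (ω ^ l)⁻¹ = (starRingEnd ℂ) (ω ^ l) := by
      rw [Complex.inv_def, Complex.normSq_eq_norm_sq, hωn l]
      simp
    rw [h1, Complex.add_conj]
    simp only [haa]
    push_cast
    ring
  set cc : ℕ → ℂ := fun l => (z⁻¹) ^ (r - 1) *
    (((1 / N : ℂ) * ∑ j ∈ range N, (z * (ω ^ l)⁻¹) ^ j) * (ω ^ l) ^ (r - 1)) with hcc
  have hω0 : ∀ l, ω ^ l ≠ 0 := fun l => pow_ne_zero _ (hω.ne_zero (by omega))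
  refine ⟨aa, fun l => (cc l).im, ?_, ?_, ?_⟩
  · intro l
    simp only [haa]
    rw [abs_mul, abs_of_pos hα]
    have h1 := Complex.abs_re_le_norm (ω ^ l)
    rw [hωn l] at h1
    calc α * |(ω ^ l).re| ≤ α * 1 := mul_le_mul_of_nonneg_left h1 hα.le
      _ = α := mul_one α
  · have h1 : ∀ l ∈ range N, |(cc l).im| ≤ Real.exp (r * σ) := by
      intro l _
      have h2 : ‖cc l‖ ≤ t ^ (r - 1) := by
        simp only [hcc]
        rw [norm_mul, norm_mul, norm_mul, norm_pow, norm_pow, hωn l, one_pow, mul_one, norm_inv,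
          hzn, inv_inv]
        have h3 : ‖(1 / N : ℂ)‖ * ‖∑ j ∈ range N, (z * (ω ^ l)⁻¹) ^ j‖ ≤ 1 := by
          have h4 : ‖∑ j ∈ range N, (z * (ω ^ l)⁻¹) ^ j‖ ≤ N := by
            calc ‖∑ j ∈ range N, (z * (ω ^ l)⁻¹) ^ j‖ ≤ ∑ j ∈ range N, ‖(z * (ω ^ l)⁻¹) ^ j‖ :=
                  norm_sum_le _ _
              _ ≤ ∑ j ∈ range N, (1 : ℝ) := by
                  apply sum_le_sum
                  intro j _
                  rw [norm_pow, norm_mul, norm_inv, hωn l, hzn, inv_one, mul_one]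
                  apply pow_le_one₀ (by positivity)
                  exact inv_le_one_of_one_le₀ ht1
              _ = N := by simp
          rw [norm_div, norm_one, Complex.norm_natCast]
          have hNr : (0 : ℝ) < N := by exact_mod_cast hN0
          rw [one_div, inv_mul_le_iff₀ hNr, mul_one]
          exact h4
        calc t ^ (r - 1) * (‖(1 / N : ℂ)‖ * ‖∑ j ∈ range N, (z * (ω ^ l)⁻¹) ^ j‖)
            ≤ t ^ (r - 1) * 1 := mul_le_mul_of_nonneg_left h3 (by positivity)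
          _ = t ^ (r - 1) := mul_one _
      calc |(cc l).im| ≤ ‖cc l‖ := Complex.abs_im_le_norm _
        _ ≤ t ^ (r - 1) := h2
        _ ≤ t ^ r := pow_le_pow_right₀ ht1 (by omega)
        _ ≤ (Real.exp σ) ^ r := pow_le_pow_left₀ ht0.le htle r
        _ = Real.exp (r * σ) := by rw [← Real.exp_nat_mul]
    calc ∑ l ∈ range N, |(cc l).im| ≤ ∑ l ∈ range N, Real.exp (r * σ) := sum_le_sum h1
      _ = 2 * r * Real.exp (r * σ) := by
          rw [sum_const, card_range, nsmul_eq_mul, hN]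
          push_cast
          ring
  · intro k hk
    set B : Polynomial ℂ := Polynomial.X ^ (r - 1 - k) *
      (Polynomial.C ((α : ℂ) / 2) * (Polynomial.X ^ 2 + 1)) ^ k with hBdef
    have hBeval : ∀ w : ℂ, w ≠ 0 → B.eval w = w ^ (r - 1) * ((α : ℂ) / 2 * (w + w⁻¹)) ^ k := by
      intro w hw
      rw [hBdef]
      simp only [Polynomial.eval_mul, Polynomial.eval_pow, Polynomial.eval_X, Polynomial.eval_C,
        Polynomial.eval_add, Polynomial.eval_one]
      have h1 : (α : ℂ) / 2 * (w ^ 2 + 1) = w * ((α : ℂ) / 2 * (w + w⁻¹)) := by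
        field_simp
      rw [h1, mul_pow, ← mul_assoc, ← pow_add]
      congr 2
      omega
    have hBdeg : B.natDegree < N := by
      have h1 : B.natDegree ≤ (r - 1 - k) + k * 2 := by
        rw [hBdef]
        refine Polynomial.natDegree_mul_le.trans ?_
        apply add_le_add
        · exact Polynomial.natDegree_X_pow_le _
        · refine Polynomial.natDegree_pow_le.trans ?_
          apply Nat.mul_le_mul_left
          compute_degree
      omega
    have h1 := w_poly hN0 hω B hBdeg z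
    have h2 : ∑ l ∈ range N, cc l * (aa l : ℂ) ^ k = (Complex.I * b) ^ k := by
      have h3 : (z⁻¹) ^ (r - 1) * B.eval z = (Complex.I * b) ^ k := by
        rw [hBeval z hz0, hzz, ← mul_assoc, ← mul_pow, inv_mul_cancel₀ hz0, one_pow, one_mul]
      rw [← h3, h1, Finset.mul_sum]
      apply sum_congr rfl
      intro l _
      rw [hBeval _ (hω0 l), ← haac l]
      simp only [hcc]
      ring
    rw [← h2, Complex.im_sum]
    apply sum_congr rfl
    intro l _
    rw [← Complex.ofReal_pow, Complex.im_mul_ofReal]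

end Pool.Agent.H25.HD
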